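import Mathlib
import Pool.Agent.H519R3.AC.Two
import Pool.Agent.H519R3.AC.Wald

set_option autoImplicit false

/-!
# SHGH for blow-ups of the plane at generic points, in every characteristic

For every `q` there is an `N` such that for every algebraically closed field `k` of any
characteristic, all `s ≥ N` generic points of the plane over `k`, all multiplicities `w` and all
`d`, the divisor class `d H - ∑ w i E i` is not effective if `(1 + s ^ (-q)) √s d ≤ ∑ w i` or
`√s d < ∑ w i ≤ s ^ q`, and has `h¹ = 0` if `(1 + s ^ (-q)) √s w i + √s ≤ d` for all `i`.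
-/

namespace Pool.Agent.Results.MP_0dccba_ag.EveryCharacteristic

open MvPolynomial Pool.Agent.H932R5

universe u

/-- The homogeneous ideal of the fat points with support `(1 : P i 0 : P i 1)` and multiplicity
`w i`: the intersection of the `w i`-th powers of the ideals of the points. -/
noncomputable def fat {k : Type u} [Field k] {s : ℕ} (P : Fin s → Fin 2 → k) (w : Fin s → ℕ) :
    Ideal (MvPolynomial (Fin 3) k) :=
  ⨅ i : Fin s, (Ideal.span {X 1 - C (P i 0) * X 0, X 2 - C (P i 1) * X 0}) ^ (w i)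

theorem result (q : ℕ) : ∃ N : ℕ, ∀ (k : Type u) [Field k] [IsAlgClosed k] (s : ℕ), N ≤ s →
    ∀ (w : Fin s → ℕ) (P : Fin s → Fin 2 → k),
    AlgebraicIndependent (⊥ : Subfield k) (fun ij : Fin s × Fin 2 => P ij.1 ij.2) →
    ∀ d : ℕ,
      (0 < ∑ i, w i →
        (1 + 1 / (s : ℝ) ^ q) * (Real.sqrt s * d) ≤ ∑ i, (w i : ℝ) ∨
          (∑ i, w i ≤ s ^ q ∧ Real.sqrt s * d < ∑ i, (w i : ℝ)) →
        ∀ G : MvPolynomial (Fin 3) k, G.IsHomogeneous d → G ∈ fat P w → G = 0) ∧
      ((∀ i, (1 + 1 / (s : ℝ) ^ q) * (Real.sqrt s * w i) + Real.sqrt s ≤ d) →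
        Module.finrank k
          ↥(homogeneousSubmodule (Fin 3) k d ⊓ Submodule.restrictScalars k (fat P w))
          + ∑ i, Nat.choose (w i + 1) 2 = Nat.choose (d + 2) 2) := by
  obtain ⟨N, hN1, hN⟩ := Pool.Agent.H519R3.AC.two_sided.{u} 1 (q + 1)
  refine ⟨N + 2, fun k _ _ s hs w P hP d => ?_⟩
  have hVd : (homogeneousSubmodule (Fin 3) k d ⊓ Submodule.restrictScalars k (fat P w)) =
      Vd (E := 1) d w P := by
    unfold fat Vd
    simp only [Pool.Agent.H519R3.AC.hI_plane]
  obtain ⟨h1, -, h3⟩ := hN k s (by omega) w P hP d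
  have hs2 : (2 : ℝ) ≤ s := by exact_mod_cast (show 2 ≤ s by omega)
  have hs1 : (1 : ℝ) ≤ s := by linarith
  have hs0 : (0 : ℝ) < s := by linarith
  have hsq0 : 0 < Real.sqrt s := Real.sqrt_pos.2 hs0
  have hss : Real.sqrt s * Real.sqrt s = s := Real.mul_self_sqrt hs0.le
  have hroot : (s : ℝ) ^ (((1 : ℕ) : ℝ) / (((1 : ℕ) : ℝ) + 1)) = Real.sqrt s := by
    rw [Real.sqrt_eq_rpow]
    norm_num
  have hroot' : (s : ℝ) ^ ((1 : ℝ) / (((1 : ℕ) : ℝ) + 1)) = Real.sqrt s := by
    rw [Real.sqrt_eq_rpow]
    norm_num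
  have hpw : (0 : ℝ) < (s : ℝ) ^ q := by positivity
  have hle : 1 / (s : ℝ) ^ (q + 1) ≤ 1 / (s : ℝ) ^ q :=
    one_div_le_one_div_of_le hpw (pow_le_pow_right₀ hs1 (by omega))
  constructor
  · intro hw hd G hG hGm
    have hlow : Low 1 (q + 1) s w d := by
      unfold Low
      rw [hroot]
      rcases hd with hd | hd
      · left
        refine le_trans (mul_le_mul_of_nonneg_right ?_ (by positivity)) hd
        linarith
      · right
        refine ⟨hd.1.trans (Nat.pow_le_pow_right (by omega) (by omega)), ?_⟩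
        have h4 := mul_self_lt_mul_self (by positivity) hd.2
        have h5 : Real.sqrt s * (d : ℝ) * (Real.sqrt s * d) = s * ((d : ℝ) * d) := by
          calc Real.sqrt s * (d : ℝ) * (Real.sqrt s * d) =
              (Real.sqrt s * Real.sqrt s) * ((d : ℝ) * d) := by ring
            _ = _ := by rw [hss]
        rw [h5] at h4
        have h6 : s * (d * d) < (∑ i, w i) * (∑ i, w i) := by exact_mod_cast h4
        calc s ^ 1 * d ^ (1 + 1) = s * (d * d) := by ring
          _ < (∑ i, w i) * (∑ i, w i) := h6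
          _ = (∑ i, w i) ^ (1 + 1) := by ring
    have h4 := h1 hw hlow
    have h5 : G ∈ Vd (E := 1) d w P := by
      rw [← hVd]
      exact Submodule.mem_inf.2 ⟨hG, hGm⟩
    rw [h4] at h5
    exact (Submodule.mem_bot k).1 h5
  · intro hd
    rw [hVd]
    rcases Nat.eq_zero_or_pos (∑ i, w i) with h0 | h0
    · have hw0 : ∀ i, w i = 0 := fun i => Finset.sum_eq_zero_iff.1 h0 i (Finset.mem_univ i)
      have h4 := (SurjAt.of_zero (E := 1) hw0 P d).finrank
      have h5 : ∑ i, (w i + 1).choose (1 + 1) = ∑ i, (w i + 1).choose 2 := rfl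
      rw [h5] at h4
      rw [add_comm]
      exact h4
    · have hhigh : High 1 (q + 1) s w d := by
        intro i
        rw [hroot']
        have key : ∀ j, 0 < w j →
            (1 + 1 / (s : ℝ) ^ (q + 1)) * (Real.sqrt s * ((w j : ℝ) + ((1 : ℕ) : ℝ))) ≤ d := by
          intro j hj
          have hjR : (1 : ℝ) ≤ w j := by exact_mod_cast hj
          refine le_trans ?_ (hd j)
          have e1 : 1 / (s : ℝ) ^ (q + 1) * ((w j : ℝ) + 1) ≤ 1 / (s : ℝ) ^ q * w j := by
            rw [pow_succ]
            have e2 : 1 / ((s : ℝ) ^ q * s) = 1 / (s : ℝ) ^ q * (1 / s) := by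
              rw [one_div_mul_one_div]
            rw [e2, mul_assoc]
            refine mul_le_mul_of_nonneg_left ?_ (by positivity)
            rw [one_div, inv_mul_le_iff₀ hs0]
            nlinarith
          have e3 : (1 + 1 / (s : ℝ) ^ q) * (Real.sqrt s * w j) + Real.sqrt s -
              (1 + 1 / (s : ℝ) ^ (q + 1)) * (Real.sqrt s * ((w j : ℝ) + ((1 : ℕ) : ℝ))) =
              Real.sqrt s * (1 / (s : ℝ) ^ q * w j - 1 / (s : ℝ) ^ (q + 1) * ((w j : ℝ) + 1)) := by
            push_cast
            ring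
          have e4 : 0 ≤ Real.sqrt s *
              (1 / (s : ℝ) ^ q * w j - 1 / (s : ℝ) ^ (q + 1) * ((w j : ℝ) + 1)) :=
            mul_nonneg hsq0.le (by linarith)
          linarith
        rcases Nat.eq_zero_or_pos (w i) with hi | hi
        · obtain ⟨j, hj⟩ : ∃ j, 0 < w j := by
            by_contra hcon
            push Not at hcon
            have : ∑ i, w i = 0 := Finset.sum_eq_zero fun i _ => Nat.le_zero.1 (hcon i)
            omega
          refine le_trans ?_ (key j hj)
          refine mul_le_mul_of_nonneg_left (mul_le_mul_of_nonneg_left ?_ hsq0.le) (by positivity)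
          have : (w i : ℝ) ≤ w j := by exact_mod_cast (by omega : w i ≤ w j)
          linarith
        · exact key i hi
      have h4 := h3 hhigh
      rw [add_comm]
      exact h4

end Pool.Agent.Results.MP_0dccba_ag.EveryCharacteristic
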