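import Pool.Agent.H519R3.RE.X5

/-!
MP_b525bf_ag: resolution of the quotients of affine spaces in characteristic `p` by elementary
abelian `p`-groups of arbitrary rank whose generators move the points in linearly independent
directions outside a coordinate subspace.
-/

set_option autoImplicit false

open AlgebraicGeometry CategoryTheory MvPolynomial Pool.Agent.H920R2

universe u

namespace Pool.Agent.Results.MP_b525bf_ag.ElementaryAbelian

variable {k : Type u} [Field k] {n m r : ℕ}

/-- The automorphism `Y t ↦ Y t + v t` of the affine space with the coordinates `X i`, `Y t`, where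
the `v t` are polynomials in the `X i`. -/
noncomputable def shift (v : Fin m → MvPolynomial (Fin n) k) :
    MvPolynomial (Fin n ⊕ Fin m) k →ₐ[k] MvPolynomial (Fin n ⊕ Fin m) k :=
  aeval (Sum.elim (fun i => X (Sum.inl i)) fun t => X (Sum.inr t) + rename Sum.inl (v t))

/-- The algebra of common invariants of the automorphisms of the rows of a matrix. -/
noncomputable def invariants (v : Fin r → Fin m → MvPolynomial (Fin n) k) :
    Subalgebra k (MvPolynomial (Fin n ⊕ Fin m) k) where
  carrier := {b | ∀ j, shift (v j) b = b}
  mul_mem' := by
    intro a b ha hb j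
    rw [map_mul, ha j, hb j]
  add_mem' := by
    intro a b ha hb j
    rw [map_add, ha j, hb j]
  algebraMap_mem' := fun a j => (shift (v j)).commutes a

/-- The quotient of the affine space by the group generated by the automorphisms. -/
noncomputable def quot (v : Fin r → Fin m → MvPolynomial (Fin n) k) : Scheme.{u} :=
  Spec (CommRingCat.of (invariants v))

/-- The structure morphism of the quotient. -/
noncomputable def quotStr (v : Fin r → Fin m → MvPolynomial (Fin n) k) :
    quot v ⟶ Spec (CommRingCat.of k) :=
  Spec.map (CommRingCat.ofHom (algebraMap k (invariants v)))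

/-- Let `k` be a field of characteristic `p`, let the coordinates `X i` of affine `n`-space have
weights `w i ≥ 0`, not all `0`, and let `v j = (v j t)`, for `j < r`, be vectors of polynomials in
the `X i`, such that the entries of `v j` are weighted homogeneous of the same degree `l j > 0`.
Suppose that the vectors `v 1 (z), ..., v r (z)` are linearly independent at every point `z` (with
coordinates in any field) outside the subspace where the coordinates of positive weight vanish.
Then the quotient of affine `n + m`-space by the elementary abelian group `(ℤ/p)^r` generated by the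
commuting automorphisms `Y t ↦ Y t + v j t` is a variety and has a resolution of singularities. -/
theorem result (p : ℕ) [Fact p.Prime] (k : Type u) [Field k] [CharP k p] (n m r : ℕ)
    (w : Fin n → ℕ) (hw : ∃ i, 0 < w i) (l : Fin r → ℕ) (hl : ∀ j, 0 < l j)
    (v : Fin r → Fin m → MvPolynomial (Fin n) k)
    (hv : ∀ j t, IsWeightedHomogeneous w (v j t) (l j))
    (hV : ∀ (K : Type u) [Field K] [Algebra k K] (z : Fin n → K), (∃ i, 0 < w i ∧ z i ≠ 0) →
      LinearIndependent K (fun j t => aeval z (v j t))) :
    IsVariety (quotStr v) ∧
    ∃ (Y : Scheme.{u}) (π : Y ⟶ quot v),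
      AlgebraicGeometry.IsIntegral Y ∧ AlgebraicGeometry.IsProper π ∧
      AlgebraicGeometry.Smooth (π ≫ quotStr v) ∧
      ∃ U : (quot v).Opens, Dense (U : Set (quot v)) ∧ IsIso (π ∣_ U) := by
  have hp : p.Prime := Fact.out
  have hpk : (p : k) = 0 := CharP.cast_eq_zero k p
  have heq : invariants v = Pool.Agent.H519R3.RE.CS v r := by
    ext b
    constructor
    · intro h j _
      exact h j
    · intro h j
      exact h j j.2
  obtain ⟨h1, h2⟩ := Pool.Agent.H519R3.RE.good_CS v hp hpk w hw l hl hv hV r le_rfl
  have h3 := Pool.Agent.H519R3.RS.concl (Pool.Agent.H519R3.RE.isFilt_EI _ w) h1 h2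
  have key : ∀ C : Subalgebra k (MvPolynomial (Fin n ⊕ Fin m) k),
      C = Pool.Agent.H519R3.RE.CS v r →
      IsVariety (X := Spec (CommRingCat.of C)) (Spec.map (CommRingCat.ofHom (algebraMap k C))) ∧
      ∃ (Y : Scheme.{u}) (π : Y ⟶ Spec (CommRingCat.of C)),
        AlgebraicGeometry.IsIntegral Y ∧ AlgebraicGeometry.IsProper π ∧
        AlgebraicGeometry.Smooth (π ≫ Spec.map (CommRingCat.ofHom (algebraMap k C))) ∧
        ∃ U : (Spec (CommRingCat.of C)).Opens,
          Dense (U : Set (Spec (CommRingCat.of C))) ∧ IsIso (π ∣_ U) := by
    rintro _ rfl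
    exact h3
  exact key _ heq

end Pool.Agent.Results.MP_b525bf_ag.ElementaryAbelian
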