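import Pool.Agent.H519R3.RE.X8

/-!
MP_b525bf_ag: resolution of the quotients of affine spaces in characteristic `p` by arbitrary finite
groups of translations along a vector of polynomials without zeros outside a coordinate subspace.
-/

set_option autoImplicit false

open AlgebraicGeometry CategoryTheory MvPolynomial Pool.Agent.H920R2

universe u

namespace Pool.Agent.Results.MP_b525bf_ag.TranslationGroups

variable {k : Type u} [Field k] {n m : ℕ}

/-- The automorphism `Y t ↦ Y t + v t` of the affine space with the coordinates `X i`, `Y t`, where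
the `v t` are polynomials in the `X i`. -/
noncomputable def shift (v : Fin m → MvPolynomial (Fin n) k) :
    MvPolynomial (Fin n ⊕ Fin m) k →ₐ[k] MvPolynomial (Fin n ⊕ Fin m) k :=
  aeval (Sum.elim (fun i => X (Sum.inl i)) fun t => X (Sum.inr t) + rename Sum.inl (v t))

/-- The algebra of invariants of a group `Γ ⊆ k` of translations `Y ↦ Y + a * v`, `a ∈ Γ`. -/
noncomputable def invariants (Γ : AddSubgroup k) (v : Fin m → MvPolynomial (Fin n) k) :
    Subalgebra k (MvPolynomial (Fin n ⊕ Fin m) k) where
  carrier := {b | ∀ a ∈ Γ, shift (fun t => C a * v t) b = b}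
  mul_mem' := by
    intro a b ha hb j hj
    rw [map_mul, ha j hj, hb j hj]
  add_mem' := by
    intro a b ha hb j hj
    rw [map_add, ha j hj, hb j hj]
  algebraMap_mem' := fun a j _ => (shift (fun t => C j * v t)).commutes a

/-- The quotient of the affine space by the group of translations. -/
noncomputable def quot (Γ : AddSubgroup k) (v : Fin m → MvPolynomial (Fin n) k) : Scheme.{u} :=
  Spec (CommRingCat.of (invariants Γ v))

/-- The structure morphism of the quotient. -/
noncomputable def quotStr (Γ : AddSubgroup k) (v : Fin m → MvPolynomial (Fin n) k) :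
    quot Γ v ⟶ Spec (CommRingCat.of k) :=
  Spec.map (CommRingCat.ofHom (algebraMap k (invariants Γ v)))

/-- Let `k` be a field of characteristic `p` and `Γ` a finite subgroup of the additive group of `k`
(an elementary abelian `p`-group of arbitrary rank). Let the coordinates `X i` of affine `n`-space
have weights `w i ≥ 0`, not all `0`, and let `v = (v t)` be a vector of weighted homogeneous
polynomials in the `X i` of the same degree `l > 0`, without common zeros (with coordinates in any
field) outside the subspace where the coordinates of positive weight vanish. Then the quotient of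
affine `n + m`-space by the group `Γ`, where `a ∈ Γ` acts by `(x, y) ↦ (x, y + a * v(x))`, is a
variety and has a resolution of singularities. -/
theorem result (p : ℕ) [Fact p.Prime] (k : Type u) [Field k] [CharP k p] (Γ : AddSubgroup k)
    [Finite Γ] (n m : ℕ) (w : Fin n → ℕ) (hw : ∃ i, 0 < w i) (l : ℕ) (hl : 0 < l)
    (v : Fin m → MvPolynomial (Fin n) k) (hv : ∀ t, IsWeightedHomogeneous w (v t) l)
    (hV : ∀ (K : Type u) [Field K] [Algebra k K] (z : Fin n → K), (∃ i, 0 < w i ∧ z i ≠ 0) →
      ∃ t, aeval z (v t) ≠ 0) :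
    IsVariety (quotStr Γ v) ∧
    ∃ (Y : Scheme.{u}) (π : Y ⟶ quot Γ v),
      AlgebraicGeometry.IsIntegral Y ∧ AlgebraicGeometry.IsProper π ∧
      AlgebraicGeometry.Smooth (π ≫ quotStr Γ v) ∧
      ∃ U : (quot Γ v).Opens, Dense (U : Set (quot Γ v)) ∧ IsIso (π ∣_ U) := by
  have hp : p.Prime := Fact.out
  let ε := (Finite.equivFin Γ).symm
  let γ : Fin (Nat.card Γ) → k := fun j => (ε j : k)
  have heq : invariants Γ v =
      Pool.Agent.H519R3.RE.CS (Pool.Agent.H519R3.RE.vm γ v) (Nat.card Γ) := by
    ext b
    constructor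
    · intro h j _
      exact h (ε j) (ε j).2
    · intro h a ha
      have h1 := h (ε.symm ⟨a, ha⟩) (ε.symm ⟨a, ha⟩).2
      have h2 : γ (ε.symm ⟨a, ha⟩) = a := by
        change ((ε (ε.symm ⟨a, ha⟩) : Γ) : k) = a
        rw [Equiv.apply_symm_apply]
      have h3 : Pool.Agent.H519R3.RE.vm γ v (ε.symm ⟨a, ha⟩) = fun t => C a * v t := by
        ext1 t
        unfold Pool.Agent.H519R3.RE.vm
        rw [h2]
      rw [h3] at h1
      exact h1
  obtain ⟨h1, h2⟩ := Pool.Agent.H519R3.RE.good_fin γ v hp w hw l hl hv hV (Nat.card Γ) le_rfl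
  have h3 := Pool.Agent.H519R3.RS.concl (Pool.Agent.H519R3.RE.isFilt_EI _ w) h1 h2
  have key : ∀ C : Subalgebra k (MvPolynomial (Fin n ⊕ Fin m) k),
      C = Pool.Agent.H519R3.RE.CS (Pool.Agent.H519R3.RE.vm γ v) (Nat.card Γ) →
      IsVariety (X := Spec (CommRingCat.of C)) (Spec.map (CommRingCat.ofHom (algebraMap k C))) ∧
      ∃ (Y : Scheme.{u}) (π : Y ⟶ Spec (CommRingCat.of C)),
        AlgebraicGeometry.IsIntegral Y ∧ AlgebraicGeometry.IsProper π ∧
        AlgebraicGeometry.Smooth (π ≫ Spec.map (CommRingCat.ofHom (algebraMap k C))) ∧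
        ∃ U : (Spec (CommRingCat.of C)).Opens,
          Dense (U : Set (Spec (CommRingCat.of C))) ∧ IsIso (π ∣_ U) := by
    rintro _ rfl
    exact h3
  exact key _ heq

end Pool.Agent.Results.MP_b525bf_ag.TranslationGroups
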