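import Mathlib
import Pool.Agent.H519R3.AC.CollMain

set_option autoImplicit false

/-!
# Vanishing for general monomial collisions in every characteristic

For every `e` there is an `N` such that for every algebraically closed field `k` of any
characteristic, all `r ≥ N` and all `m ≥ 1`, the subscheme of the plane with ideal
`(y - (a₀ + a₁ x + ... + a_(r-1) x ^ (r-1)), (x - c) ^ r) ^ m` lies, for all `(c, a)` outside a
hypersurface, on no curve of degree `d` with `(1 + r ^ (-e)) d ≤ m √r`, and if `m ≤ r ^ e` on no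
curve of degree `d < m √r`.
-/

namespace Pool.Agent.Results.MP_cea741_ag.CollisionEveryCharacteristic

open Polynomial

universe u

theorem result (e : ℕ) : ∃ N : ℕ, ∀ (k : Type u) [Field k] [IsAlgClosed k] (r : ℕ), N ≤ r →
    ∀ m : ℕ, 0 < m →
      ∃ F : MvPolynomial (Fin (r + 1)) k, F ≠ 0 ∧
        ∀ (c : k) (a : Fin r → k), MvPolynomial.eval (Fin.cons c a : Fin (r + 1) → k) F ≠ 0 →
          ∀ d : ℕ, ((1 + 1 / (r : ℝ) ^ e) * d ≤ m * Real.sqrt r ∨
              (m ≤ r ^ e ∧ (d : ℝ) < m * Real.sqrt r)) →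
            ∀ P : MvPolynomial (Fin 3) k, P.IsHomogeneous d →
              (MvPolynomial.aeval ![C X, X, 1] : MvPolynomial (Fin 3) k →ₐ[k] k[X][X]) P ∈
                (Ideal.span {X - C (∑ j : Fin r, C (a j) * X ^ (j : ℕ)), C ((X - C c) ^ r)} :
                  Ideal k[X][X]) ^ m →
              P = 0 := by
  obtain ⟨N, hN⟩ := Pool.Agent.H519R3.AC.coll_core.{u} e
  refine ⟨N, fun k _ _ r hr m hm => ?_⟩
  have : Infinite k := IsAlgClosed.instInfinite
  obtain ⟨F, hF, hF'⟩ := hN k r hr m hm
  refine ⟨F, hF, fun c a hc d hd P hP hP' => ?_⟩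
  have h1 := ((hF' c a hc d).1 (by
    rcases hd with hd | hd
    · exact Or.inl hd
    · exact Or.inr (Or.inl hd))).1
  exact h1 P hP hP'

end Pool.Agent.Results.MP_cea741_ag.CollisionEveryCharacteristic
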