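import Mathlib
import Pool.Agent.H519R3.AC.Wald

set_option autoImplicit false

/-!
# Waldschmidt constants of generic points in the plane, in every characteristic

For every `q` there is an `N` such that for every algebraically closed field `k` of any
characteristic and every set of `r ≥ N` generic points of the plane over `k`, every nonzero form of
degree `d` vanishing to order at least `m` at the points satisfies `d ≥ m √r`, provided that
`1 ≤ m ≤ r ^ q`, and the Waldschmidt constant `e` satisfies `√r / (1 + r ^ (-q)) ≤ e ≤ √r`.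
-/

namespace Pool.Agent.Results.MP_d0dfcd_ag.EveryCharacteristic

open MvPolynomial Filter Topology

universe u

/-- The form `F` vanishes to order at least `m` at the point `(1 : p 0 : p 1)`: it lies in the
`m`-th power of the ideal of the point. -/
def VanishesAt {k : Type u} [Field k] (p : Fin 2 → k) (m : ℕ) (F : MvPolynomial (Fin 3) k) :
    Prop :=
  F ∈ (Ideal.span {X 1 - C (p 0) * X 0, X 2 - C (p 1) * X 0} :
    Ideal (MvPolynomial (Fin 3) k)) ^ m

/-- The least degree `a(S, m)` of a nonzero form vanishing to order at least `m` at every point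
`(1 : P i 0 : P i 1)`. -/
noncomputable def leastDegree {k : Type u} [Field k] {r : ℕ} (P : Fin r → Fin 2 → k) (m : ℕ) : ℕ :=
  sInf {d | ∃ F : MvPolynomial (Fin 3) k, F.IsHomogeneous d ∧ F ≠ 0 ∧ ∀ i, VanishesAt (P i) m F}

/-- The points `(1 : P i 0 : P i 1)` are generic: their affine coordinates are algebraically
independent over the prime field `⊥` of `k`. -/
def Generic {k : Type u} [Field k] {r : ℕ} (P : Fin r → Fin 2 → k) : Prop :=
  AlgebraicIndependent (⊥ : Subfield k) (fun ij : Fin r × Fin 2 => P ij.1 ij.2)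

theorem result (q : ℕ) : ∃ N : ℕ, ∀ (k : Type u) [Field k] [IsAlgClosed k] (r : ℕ), N ≤ r →
    ∀ P : Fin r → Fin 2 → k, Generic P →
      (∀ m : ℕ, 0 < m → m ≤ r ^ q → (m : ℝ) * Real.sqrt r ≤ leastDegree P m) ∧
      ∃ e : ℝ, Tendsto (fun m : ℕ => (leastDegree P m : ℝ) / m) atTop (𝓝 e) ∧
        Real.sqrt r / (1 + 1 / (r : ℝ) ^ q) ≤ e ∧ e ≤ Real.sqrt r := by
  obtain ⟨N, hN⟩ := Pool.Agent.H519R3.AC.wald_main.{u} q
  refine ⟨N, fun k _ _ r hr P hP => ?_⟩
  obtain ⟨h1, h2⟩ := hN k r hr P hP
  refine ⟨h1, Pool.Agent.H519R3.AC.exists_wald P fun m hm => ?_⟩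
  have h3 := h2 m hm
  have h4 : (0 : ℝ) < 1 + 1 / (r : ℝ) ^ q := by positivity
  rw [div_mul_eq_mul_div, div_le_iff₀ h4, mul_comm (Real.sqrt r)]
  rw [mul_comm (1 + 1 / (r : ℝ) ^ q)] at h3
  exact h3

end Pool.Agent.Results.MP_d0dfcd_ag.EveryCharacteristic
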