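import Mathlib
import Pool.Agent.H519R3.AC.CollMain

set_option autoImplicit false

/-!
# Maximal rank for general collisions of every multiplicity, in every characteristic

For every `q` there is an `N` such that for every algebraically closed field `k` of any
characteristic, all `r ≥ N` and all `m ≥ 1`, the subscheme of the plane with ideal
`(y - (a₀ + a₁ x + ... + a_(r-1) x ^ (r-1)), (x - c) ^ r) ^ m` imposes, for all `(c, a)` outside a
hypersurface, independent conditions on forms of degree `d`, or lies on no form of degree `d`, for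
all `d` with `d ≤ (1 - r ^ (-q)) √r m`, or `d < √r m` and `m ≤ r ^ q`, or
`d ≥ (1 + r ^ (-q)) √r m + √r`.
-/

namespace Pool.Agent.Results.MP_e6aa12_ag.CollisionEveryCharacteristic

open Polynomial

universe u

/-- The forms of degree `d` in three variables whose dehomogenisation lies in the ideal
`(y - ∑ a_j x ^ j, (x - c) ^ r) ^ m` of `k[x][y]`. -/
noncomputable def forms {k : Type u} [Field k] {r : ℕ} (m : ℕ) (c : k) (a : Fin r → k) (d : ℕ) :
    Submodule k (MvPolynomial (Fin 3) k) :=
  MvPolynomial.homogeneousSubmodule (Fin 3) k d ⊓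
    (Submodule.restrictScalars k
      ((Ideal.span {X - C (∑ j : Fin r, C (a j) * X ^ (j : ℕ)), C ((X - C c) ^ r)} :
        Ideal k[X][X]) ^ m)).comap
      (MvPolynomial.aeval ![C X, X, 1] :
        MvPolynomial (Fin 3) k →ₐ[k] k[X][X]).toLinearMap

theorem result (q : ℕ) : ∃ N : ℕ, ∀ (k : Type u) [Field k] [IsAlgClosed k] (r : ℕ), N ≤ r →
    ∀ m : ℕ, 0 < m →
      ∃ F : MvPolynomial (Fin (r + 1)) k, F ≠ 0 ∧
        ∀ (c : k) (a : Fin r → k), MvPolynomial.eval (Fin.cons c a : Fin (r + 1) → k) F ≠ 0 →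
          ∀ d : ℕ,
            ((d : ℝ) ≤ (1 - 1 / (r : ℝ) ^ q) * (Real.sqrt r * m) ∨
              (m ≤ r ^ q ∧ (d : ℝ) < Real.sqrt r * m) ∨
              (1 + 1 / (r : ℝ) ^ q) * (Real.sqrt r * m) + Real.sqrt r ≤ d) →
            Module.finrank k ↥(forms m c a d) =
              Nat.choose (d + 2) 2 - r * Nat.choose (m + 1) 2 := by
  obtain ⟨N, hN⟩ := Pool.Agent.H519R3.AC.coll_core.{u} q
  refine ⟨N, fun k _ _ r hr m hm => ?_⟩
  have : Infinite k := IsAlgClosed.instInfinite
  obtain ⟨F, hF, hF'⟩ := hN k r hr m hm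
  refine ⟨F, hF, fun c a hc d hd => ?_⟩
  have h0 := hF' c a hc d
  rcases hd with hd | hd | hd
  · exact (h0.1 (Or.inr (Or.inr hd))).2
  · exact (h0.1 (Or.inr (Or.inl ⟨hd.1, by rw [mul_comm]; exact hd.2⟩))).2
  · exact h0.2 hd

end Pool.Agent.Results.MP_e6aa12_ag.CollisionEveryCharacteristic
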